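import Pool.Agent.Helper45.PQ.StB

/-!
# Project PQ (MP_a1f43d_co), module VAR
-/

set_option autoImplicit false

open Module Classical
open scoped LinearAlgebra.Projectivization

namespace Pool.Agent.Helper47.PQ

open Pool.Agent.Helper45.PQ
open Pool.Agent.Helper53.PB (tt line)

universe u v

/-! ### the double count -/

private theorem row_sum {α β : Type*} (Z : Finset α) (X : Finset β) (r : α → β → Prop)
    (L : β → β → Prop) (q e : ℕ)
    (h1 : ∀ x ∈ X, (Z.filter (fun y => r y x)).card = q ^ 5)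
    (h2 : ∀ x ∈ X, ∀ x' ∈ X, ¬ L x x' → (Z.filter (fun y => r y x ∧ r y x')).card = q ^ 4)
    (h3 : ∀ x ∈ X, ∀ x' ∈ X, x' ≠ x → L x x' → (Z.filter (fun y => r y x ∧ r y x')).card = 0)
    (hLx : ∀ x ∈ X, L x x) (hL : ∀ x ∈ X, 1 + e ≤ (X.filter (fun x' => L x x')).card)
    (x : β) (hx : x ∈ X) :
    (∑ x' ∈ X, ((Z.filter (fun y => r y x ∧ r y x')).card : ℤ)) ≤
      (q : ℤ) ^ 5 + (q : ℤ) ^ 4 * ((X.card : ℤ) - 1 - e) := by
  rw [← Finset.sum_filter_add_sum_filter_not X (fun x' => L x x')]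
  have hA : (∑ x' ∈ X.filter (fun x' => L x x'), ((Z.filter (fun y => r y x ∧ r y x')).card : ℤ)) =
      (q : ℤ) ^ 5 := by
    rw [Finset.sum_eq_single_of_mem x (Finset.mem_filter.2 ⟨hx, hLx x hx⟩)]
    · have : (Z.filter (fun y => r y x ∧ r y x)) = Z.filter (fun y => r y x) := by
        ext y
        simp
      rw [this, h1 x hx]
      push_cast
      rfl
    · intro x' hx' hne
      rw [Finset.mem_filter] at hx'
      rw [h3 x hx x' hx'.1 hne hx'.2]
      rfl
  have hB : (∑ x' ∈ X.filter (fun x' => ¬ L x x'), ((Z.filter (fun y => r y x ∧ r y x')).card : ℤ)) =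
      (q : ℤ) ^ 4 * ((X.filter (fun x' => ¬ L x x')).card : ℤ) := by
    rw [Finset.sum_congr rfl (g := fun _ => (q : ℤ) ^ 4)]
    · rw [Finset.sum_const, nsmul_eq_mul, mul_comm]
    · intro x' hx'
      rw [Finset.mem_filter] at hx'
      rw [h2 x hx x' hx'.1 hx'.2]
      push_cast
      rfl
  have hC : ((X.filter (fun x' => L x x')).card : ℤ) + ((X.filter (fun x' => ¬ L x x')).card : ℤ) =
      X.card := by
    exact_mod_cast Finset.card_filter_add_card_filter_not (s := X) (fun x' => L x x')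
  have hD : (1 : ℤ) + e ≤ ((X.filter (fun x' => L x x')).card : ℤ) := by
    exact_mod_cast hL x hx
  rw [hA, hB]
  have hq : (0 : ℤ) ≤ (q : ℤ) ^ 4 := by positivity
  have := mul_le_mul_of_nonneg_left
    (show ((X.filter (fun x' => ¬ L x x')).card : ℤ) ≤ (X.card : ℤ) - 1 - e by linarith) hq
  linarith

private theorem moments {α β : Type*} (Z Y : Finset α) (X : Finset β) (r : α → β → Prop)
    (L : β → β → Prop) (q e g : ℕ) (hZ : Z.card = q ^ 6)
    (h1 : ∀ x ∈ X, (Z.filter (fun y => r y x)).card = q ^ 5)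
    (h2 : ∀ x ∈ X, ∀ x' ∈ X, ¬ L x x' → (Z.filter (fun y => r y x ∧ r y x')).card = q ^ 4)
    (h3 : ∀ x ∈ X, ∀ x' ∈ X, x' ≠ x → L x x' → (Z.filter (fun y => r y x ∧ r y x')).card = 0)
    (hLx : ∀ x ∈ X, L x x) (hL : ∀ x ∈ X, 1 + e ≤ (X.filter (fun x' => L x x')).card)
    (hY : Y ⊆ Z) (hg : ∀ y ∈ Y, (X.filter (fun x => r y x)).card ≤ g) (he : e + 1 ≤ q) :
    (Y.card : ℤ) * (X.card - 2 * g * q) ≤ (q : ℤ) ^ 6 * ((q : ℤ) - 1 - e) := by
  obtain ⟨N, hN⟩ : ∃ N : α → ℤ, N = fun y => ((X.filter (fun x => r y x)).card : ℤ) := ⟨_, rfl⟩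
  have hN1 : ∀ y, N y = ∑ x ∈ X, (if r y x then (1 : ℤ) else 0) := by
    intro y
    rw [hN, Finset.sum_boole]
  have S1 : ∑ y ∈ Z, N y = (X.card : ℤ) * (q : ℤ) ^ 5 := by
    rw [Finset.sum_congr rfl (fun y _ => hN1 y), Finset.sum_comm]
    rw [Finset.sum_congr rfl (g := fun _ => (q : ℤ) ^ 5)]
    · rw [Finset.sum_const, nsmul_eq_mul]
    · intro x hx
      rw [Finset.sum_boole, h1 x hx]
      push_cast
      rfl
  have S2 : ∑ y ∈ Z, N y ^ 2 ≤
      (X.card : ℤ) * ((q : ℤ) ^ 5 + (q : ℤ) ^ 4 * ((X.card : ℤ) - 1 - e)) := by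
    have h4 : ∑ y ∈ Z, N y ^ 2 =
        ∑ x ∈ X, ∑ x' ∈ X, ((Z.filter (fun y => r y x ∧ r y x')).card : ℤ) := by
      have h5 : ∀ y ∈ Z, N y ^ 2 =
          ∑ x ∈ X, ∑ x' ∈ X, (if r y x ∧ r y x' then (1 : ℤ) else 0) := by
        intro y _
        rw [hN1, sq, Finset.sum_mul_sum]
        apply Finset.sum_congr rfl
        intro x _
        apply Finset.sum_congr rfl
        intro x' _
        by_cases ha : r y x <;> by_cases hb : r y x' <;> simp [ha, hb]
      rw [Finset.sum_congr rfl h5, Finset.sum_comm]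
      apply Finset.sum_congr rfl
      intro x _
      rw [Finset.sum_comm]
      apply Finset.sum_congr rfl
      intro x' _
      rw [Finset.sum_boole]
    rw [h4, ← nsmul_eq_mul]
    apply Finset.sum_le_card_nsmul
    intro x hx
    exact row_sum Z X r L q e h1 h2 h3 hLx hL x hx
  have S3 : ∑ y ∈ Z, ((q : ℤ) * N y - X.card) ^ 2 ≤
      (X.card : ℤ) * ((q : ℤ) ^ 6 * ((q : ℤ) - 1 - e)) := by
    have h4 : ∑ y ∈ Z, ((q : ℤ) * N y - X.card) ^ 2 =
        (q : ℤ) ^ 2 * (∑ y ∈ Z, N y ^ 2) - 2 * q * X.card * (∑ y ∈ Z, N y) +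
          (Z.card : ℤ) * (X.card : ℤ) ^ 2 := by
      rw [Finset.mul_sum, Finset.mul_sum, ← nsmul_eq_mul, ← Finset.sum_const,
        ← Finset.sum_sub_distrib, ← Finset.sum_add_distrib]
      apply Finset.sum_congr rfl
      intro y _
      ring
    have h5 : (Z.card : ℤ) = (q : ℤ) ^ 6 := by exact_mod_cast hZ
    rw [h4, S1, h5]
    have hq : (0 : ℤ) ≤ (q : ℤ) ^ 2 := by positivity
    have h6 := mul_le_mul_of_nonneg_left S2 hq
    nlinarith [h6]
  have S4 : (Y.card : ℤ) * ((X.card : ℤ) * (X.card - 2 * g * q)) ≤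
      ∑ y ∈ Z, ((q : ℤ) * N y - X.card) ^ 2 := by
    calc (Y.card : ℤ) * ((X.card : ℤ) * (X.card - 2 * g * q))
        ≤ ∑ y ∈ Y, ((q : ℤ) * N y - X.card) ^ 2 := by
          rw [← nsmul_eq_mul]
          apply Finset.card_nsmul_le_sum
          intro y hy
          have h4 : N y ≤ g := by
            rw [hN]
            show ((X.filter (fun x => r y x)).card : ℤ) ≤ g
            exact_mod_cast hg y hy
          have h5 : (0 : ℤ) ≤ (q : ℤ) * X.card := by positivity
          have h6 := mul_le_mul_of_nonneg_left h4 h5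
          nlinarith [sq_nonneg ((q : ℤ) * N y)]
      _ ≤ ∑ y ∈ Z, ((q : ℤ) * N y - X.card) ^ 2 :=
          Finset.sum_le_sum_of_subset_of_nonneg hY (fun y _ _ => sq_nonneg _)
  rcases Nat.eq_zero_or_pos X.card with h0 | h0
  · rw [h0]
    have h4 : (0 : ℤ) ≤ (q : ℤ) - 1 - e := by
      have : (e : ℤ) + 1 ≤ q := by exact_mod_cast he
      linarith
    have h5 : (0 : ℤ) ≤ (q : ℤ) ^ 6 * ((q : ℤ) - 1 - e) := mul_nonneg (by positivity) h4
    have h6 : (0 : ℤ) ≤ (Y.card : ℤ) * (2 * g * q) := by positivity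
    push_cast
    nlinarith
  · have h4 : (0 : ℤ) < (X.card : ℤ) := by exact_mod_cast h0
    apply le_of_mul_le_mul_left _ h4
    calc (X.card : ℤ) * ((Y.card : ℤ) * (X.card - 2 * g * q))
        = (Y.card : ℤ) * ((X.card : ℤ) * (X.card - 2 * g * q)) := by ring
      _ ≤ _ := S4.trans S3

/-! ### linear algebra -/

section lin

variable {F : Type u} {V : Type v} [Field F] [AddCommGroup V] [Module F V]

private theorem perp3 (Q : QuadraticForm F V)
    (nd : ∀ x, (∀ y, QuadraticMap.polar Q x y = 0) → x = 0) (R a b c : V)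
    (h : ∀ y, QuadraticMap.polar Q a y = 0 → QuadraticMap.polar Q b y = 0 →
      QuadraticMap.polar Q c y = 0 → QuadraticMap.polar Q R y = 0) :
    ∃ α β γ : F, R = α • a + β • b + γ • c := by
  have h1 : QuadraticMap.polarBilin Q R ∈ Submodule.span F (Set.range
      (![QuadraticMap.polarBilin Q a, QuadraticMap.polarBilin Q b,
        QuadraticMap.polarBilin Q c] : Fin 3 → V →ₗ[F] F)) := by
    apply mem_span_of_iInf_ker_le_ker
    intro y hy
    rw [Submodule.mem_iInf] at hy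
    exact h y (hy 0) (hy 1) (hy 2)
  obtain ⟨d, hd⟩ := (Submodule.mem_span_range_iff_exists_fun F).1 h1
  rw [Fin.sum_univ_three] at hd
  refine ⟨d 0, d 1, d 2, ?_⟩
  rw [← sub_eq_zero]
  apply nd
  intro y
  have h3 : d 0 * QuadraticMap.polar Q a y + d 1 * QuadraticMap.polar Q b y +
      d 2 * QuadraticMap.polar Q c y = QuadraticMap.polar Q R y := LinearMap.congr_fun hd y
  rw [QuadraticMap.polar_sub_left, QuadraticMap.polar_add_left, QuadraticMap.polar_add_left,
    QuadraticMap.polar_smul_left, QuadraticMap.polar_smul_left, QuadraticMap.polar_smul_left,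
    ← h3]
  simp only [smul_eq_mul, sub_self]

private theorem inf_dim [FiniteDimensional F V] (Q : QuadraticForm F V) (U : Submodule F V) (a : V)
    {n : ℕ} (hU : finrank F U = n + 1) (h : ∃ w ∈ U, QuadraticMap.polar Q a w ≠ 0) :
    finrank F (U ⊓ prp Q a : Submodule F V) = n := by
  obtain ⟨w, hw, hne⟩ := h
  have h1 : ¬ U ≤ LinearMap.ker (QuadraticMap.polarBilin Q a) := fun hle => hne (hle hw)
  have h2 := Pool.Agent.Helper53.PB.Polar.finrank_inf_ker U _ h1
  have h3 : (U ⊓ prp Q a) = U ⊓ LinearMap.ker (QuadraticMap.polarBilin Q a) := rfl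
  rw [h3]
  omega

private theorem polar_self_zero (Q : QuadraticForm F V) {x : V} (h : Q x = 0) :
    QuadraticMap.polar Q x x = 0 := by
  rw [polar_self_two, h, mul_zero]

private theorem eq_of_smul {P R : ℙ F V} {c : F} (h : P.rep = c • R.rep) : P = R :=
  Pool.Agent.Helper53.PB.eq_of_rep_mem_span (Submodule.mem_span_singleton.2 ⟨c, h.symm⟩)

/-- dimension of the first perp -/
private theorem dim1 [FiniteDimensional F V] (Q : QuadraticForm F V) (qd : Qd Q 9 4) (S : ℙ F V) :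
    finrank F (prp Q S.rep) = 8 := by
  have h1 : ∃ w ∈ (⊤ : Submodule F V), QuadraticMap.polar Q S.rep w ≠ 0 := by
    by_contra hcon
    push Not at hcon
    exact S.rep_nonzero (qd.nd _ (fun y => hcon y Submodule.mem_top))
  have h2 := inf_dim Q ⊤ S.rep (n := 8) (by rw [finrank_top, qd.hd]) h1
  rwa [top_inf_eq] at h2

private theorem dim2 [FiniteDimensional F V] (Q : QuadraticForm F V) (qd : Qd Q 9 4) (S x : ℙ F V)
    (hS : Q S.rep = 0) (hx : QuadraticMap.polar Q S.rep x.rep ≠ 0) :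
    finrank F (prp Q S.rep ⊓ prp Q x.rep : Submodule F V) = 7 := by
  apply inf_dim Q _ _ (dim1 Q qd S)
  by_contra hcon
  push Not at hcon
  obtain ⟨α, β, γ, h⟩ := perp3 Q qd.nd x.rep S.rep 0 0 (fun y h1 _ _ => hcon y h1)
  apply hx
  rw [h, smul_zero, smul_zero, add_zero, add_zero, QuadraticMap.polar_smul_right,
    polar_self_zero Q hS, smul_zero]

private theorem dim3 [FiniteDimensional F V] (Q : QuadraticForm F V) (qd : Qd Q 9 4)
    (S x₁ x₂ : ℙ F V) (hS : Q S.rep = 0) (hx₁ : QuadraticMap.polar Q S.rep x₁.rep ≠ 0)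
    (hx₂ : QuadraticMap.polar Q S.rep x₂.rep ≠ 0) (hQ₂ : Q x₂.rep = 0) (hQ₁ : Q x₁.rep = 0)
    (hne : x₁ ≠ x₂) :
    finrank F (prp Q S.rep ⊓ prp Q x₁.rep ⊓ prp Q x₂.rep : Submodule F V) = 6 := by
  apply inf_dim Q _ _ (dim2 Q qd S x₁ hS hx₁)
  by_contra hcon
  push Not at hcon
  obtain ⟨α, β, γ, h⟩ := perp3 Q qd.nd x₂.rep S.rep x₁.rep 0 (fun y h1 h2 _ => hcon y ⟨h1, h2⟩)
  rw [smul_zero, add_zero] at h
  have h1 : Q x₂.rep = α * β * QuadraticMap.polar Q S.rep x₁.rep := by
    rw [h, QuadraticMap.map_add Q, QuadraticMap.map_smul, QuadraticMap.map_smul, hS, hQ₁,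
      QuadraticMap.polar_smul_left, QuadraticMap.polar_smul_right]
    simp only [smul_eq_mul]
    ring
  rw [hQ₂] at h1
  have h2 : α * β = 0 := by
    rcases mul_eq_zero.1 h1.symm with h2 | h2
    · exact h2
    · exact absurd h2 hx₁
  rcases mul_eq_zero.1 h2 with h3 | h3
  · rw [h3, zero_smul, zero_add] at h
    exact hne (eq_of_smul h).symm
  · rw [h3, zero_smul, add_zero] at h
    apply hx₂
    rw [h, QuadraticMap.polar_smul_right, polar_self_zero Q hS, smul_zero]

private theorem cnt1 (hC : StCNT.{u, v}) [Finite F] [Finite V] [FiniteDimensional F V]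
    (Q : QuadraticForm F V) (qd : Qd Q 9 4) (R S : ℙ F V) (hR : Q R.rep = 0)
    (hRS : QuadraticMap.polar Q R.rep S.rep = 0) (hne : R ≠ S) :
    ((sp Q (prp Q S.rep)).filter (fun y => QuadraticMap.polar Q R.rep y.rep ≠ 0)).card =
      Nat.card F ^ 6 := by
  apply hC F V Q _ _ 6 _ hR _ (dim1 Q qd S)
  · rw [mem_prp, QuadraticMap.polar_comm]
    exact hRS
  · by_contra hcon
    push Not at hcon
    obtain ⟨α, β, γ, h⟩ := perp3 Q qd.nd R.rep S.rep 0 0 (fun y h1 _ _ => hcon y h1)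
    rw [smul_zero, smul_zero, add_zero, add_zero] at h
    exact hne (eq_of_smul h)

private theorem cnt2 (hC : StCNT.{u, v}) [Finite F] [Finite V] [FiniteDimensional F V]
    (Q : QuadraticForm F V) (qd : Qd Q 9 4) (R S x : ℙ F V) (hR : Q R.rep = 0) (hS : Q S.rep = 0)
    (hRS : QuadraticMap.polar Q R.rep S.rep = 0) (hne : R ≠ S)
    (hx : QuadraticMap.polar Q S.rep x.rep ≠ 0) (hRx : QuadraticMap.polar Q R.rep x.rep = 0) :
    ((sp Q (prp Q S.rep ⊓ prp Q x.rep)).filter
      (fun y => QuadraticMap.polar Q R.rep y.rep ≠ 0)).card = Nat.card F ^ 5 := by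
  apply hC F V Q _ _ 5 _ hR _ (dim2 Q qd S x hS hx)
  · refine ⟨?_, ?_⟩
    · rw [SetLike.mem_coe, mem_prp, QuadraticMap.polar_comm]
      exact hRS
    · rw [SetLike.mem_coe, mem_prp, QuadraticMap.polar_comm]
      exact hRx
  · by_contra hcon
    push Not at hcon
    obtain ⟨α, β, γ, h⟩ := perp3 Q qd.nd R.rep S.rep x.rep 0 (fun y h1 h2 _ => hcon y ⟨h1, h2⟩)
    rw [smul_zero, add_zero] at h
    have h1 : QuadraticMap.polar Q S.rep R.rep = β * QuadraticMap.polar Q S.rep x.rep := by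
      rw [h, QuadraticMap.polar_add_right, QuadraticMap.polar_smul_right,
        QuadraticMap.polar_smul_right, polar_self_zero Q hS]
      simp only [smul_eq_mul]
      ring
    rw [QuadraticMap.polar_comm, hRS] at h1
    rcases mul_eq_zero.1 h1.symm with h2 | h2
    · rw [h2, zero_smul, add_zero] at h
      exact hne (eq_of_smul h)
    · exact hx h2

private theorem cnt3 (hC : StCNT.{u, v}) [Finite F] [Finite V] [FiniteDimensional F V]
    (Q : QuadraticForm F V) (qd : Qd Q 9 4) (R S x₁ x₂ : ℙ F V) (hR : Q R.rep = 0)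
    (hS : Q S.rep = 0) (hRS : QuadraticMap.polar Q R.rep S.rep = 0) (hne : R ≠ S)
    (hx₁ : QuadraticMap.polar Q S.rep x₁.rep ≠ 0) (hRx₁ : QuadraticMap.polar Q R.rep x₁.rep = 0)
    (hx₂ : QuadraticMap.polar Q S.rep x₂.rep ≠ 0) (hRx₂ : QuadraticMap.polar Q R.rep x₂.rep = 0)
    (hQ₁ : Q x₁.rep = 0) (hQ₂ : Q x₂.rep = 0) (hL : x₂.rep ∉ line R x₁) :
    ((sp Q (prp Q S.rep ⊓ prp Q x₁.rep ⊓ prp Q x₂.rep)).filter
      (fun y => QuadraticMap.polar Q R.rep y.rep ≠ 0)).card = Nat.card F ^ 4 := by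
  have h12 : x₁ ≠ x₂ := by
    rintro rfl
    exact hL (Pool.Agent.Helper53.PB.right_mem_line _ _)
  apply hC F V Q _ _ 4 _ hR _ (dim3 Q qd S x₁ x₂ hS hx₁ hx₂ hQ₂ hQ₁ h12)
  · refine ⟨⟨?_, ?_⟩, ?_⟩
    · rw [SetLike.mem_coe, mem_prp, QuadraticMap.polar_comm]
      exact hRS
    · rw [SetLike.mem_coe, mem_prp, QuadraticMap.polar_comm]
      exact hRx₁
    · rw [SetLike.mem_coe, mem_prp, QuadraticMap.polar_comm]
      exact hRx₂
  · by_contra hcon
    push Not at hcon
    obtain ⟨α, β, γ, h⟩ := perp3 Q qd.nd R.rep S.rep x₁.rep x₂.rep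
      (fun y h1 h2 h3 => hcon y ⟨⟨h1, h2⟩, h3⟩)
    -- pair with S
    have hs : β * QuadraticMap.polar Q S.rep x₁.rep + γ * QuadraticMap.polar Q S.rep x₂.rep = 0 := by
      have h1 : QuadraticMap.polar Q S.rep R.rep = β * QuadraticMap.polar Q S.rep x₁.rep +
          γ * QuadraticMap.polar Q S.rep x₂.rep := by
        rw [h, QuadraticMap.polar_add_right, QuadraticMap.polar_add_right,
          QuadraticMap.polar_smul_right, QuadraticMap.polar_smul_right,
          QuadraticMap.polar_smul_right, polar_self_zero Q hS]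
        simp only [smul_eq_mul]
        ring
      rw [← h1, QuadraticMap.polar_comm, hRS]
    have ha : α * QuadraticMap.polar Q S.rep x₁.rep + γ * QuadraticMap.polar Q x₂.rep x₁.rep = 0 := by
      have h1 : QuadraticMap.polar Q R.rep x₁.rep = α * QuadraticMap.polar Q S.rep x₁.rep +
          γ * QuadraticMap.polar Q x₂.rep x₁.rep := by
        rw [h, QuadraticMap.polar_add_left, QuadraticMap.polar_add_left,
          QuadraticMap.polar_smul_left, QuadraticMap.polar_smul_left,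
          QuadraticMap.polar_smul_left, polar_self_zero Q hQ₁]
        simp only [smul_eq_mul]
        ring
      rw [← h1, hRx₁]
    have hQ : α * β * QuadraticMap.polar Q S.rep x₁.rep + α * γ * QuadraticMap.polar Q S.rep x₂.rep +
        β * γ * QuadraticMap.polar Q x₁.rep x₂.rep = 0 := by
      have h1 : Q R.rep = α * β * QuadraticMap.polar Q S.rep x₁.rep +
          α * γ * QuadraticMap.polar Q S.rep x₂.rep +
          β * γ * QuadraticMap.polar Q x₁.rep x₂.rep := by
        rw [h, QuadraticMap.map_add Q, QuadraticMap.map_add Q, QuadraticMap.map_smul,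
          QuadraticMap.map_smul, QuadraticMap.map_smul, hS, hQ₁, hQ₂,
          QuadraticMap.polar_add_left, QuadraticMap.polar_smul_left, QuadraticMap.polar_smul_left,
          QuadraticMap.polar_smul_left, QuadraticMap.polar_smul_right,
          QuadraticMap.polar_smul_right, QuadraticMap.polar_smul_right]
        simp only [smul_eq_mul]
        ring
      rw [← h1, hR]
    have hβ : β ≠ 0 := by
      intro hβ
      rw [hβ, zero_mul, zero_add] at hs
      rcases mul_eq_zero.1 hs with h2 | h2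
      · rw [hβ, h2, zero_smul, zero_smul, add_zero, add_zero] at h
        exact hne (eq_of_smul h)
      · exact hx₂ h2
    have hγ : γ ≠ 0 := by
      intro hγ
      rw [hγ, zero_mul, add_zero] at hs
      rcases mul_eq_zero.1 hs with h2 | h2
      · exact hβ h2
      · exact hx₁ h2
    have hα : α ≠ 0 := by
      intro hα
      apply hL
      rw [Pool.Agent.Helper53.PB.mem_line]
      refine ⟨γ⁻¹, -(γ⁻¹ * β), ?_⟩
      rw [h, hα, zero_smul, zero_add, smul_add, smul_smul, smul_smul, inv_mul_cancel₀ hγ, one_smul,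
        neg_smul]
      abel
    have hf : QuadraticMap.polar Q x₂.rep x₁.rep ≠ 0 := by
      intro h0
      rw [h0, mul_zero, add_zero] at ha
      rcases mul_eq_zero.1 ha with h2 | h2
      · exact hα h2
      · exact hx₁ h2
    have h5 : β * γ * QuadraticMap.polar Q x₁.rep x₂.rep = 0 := by
      have h6 : α * (β * QuadraticMap.polar Q S.rep x₁.rep +
          γ * QuadraticMap.polar Q S.rep x₂.rep) = 0 := by rw [hs, mul_zero]
      linear_combination hQ - h6
    rw [QuadraticMap.polar_comm] at hf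
    exact mul_ne_zero (mul_ne_zero hβ hγ) hf h5

end lin

theorem hVAR (h1 : StCNT.{u, v}) : StVAR.{u, v} := by
  intro F _ _ V _ _ _ _ Q R S X Y e g qd hR hS hRS hne heq hX hY hXl hYg
  obtain ⟨Z, hZ⟩ : ∃ Z : Finset (ℙ F V), Z = (sp Q (prp Q S.rep)).filter
    (fun y => QuadraticMap.polar Q R.rep y.rep ≠ 0) := ⟨_, rfl⟩
  have hmem : ∀ y, y ∈ Z ↔ (QuadraticMap.polar Q S.rep y.rep = 0 ∧ Q y.rep = 0) ∧
      QuadraticMap.polar Q R.rep y.rep ≠ 0 := by
    intro y
    rw [hZ, Finset.mem_filter, mem_sp, mem_prp]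
  apply moments Z Y X (fun y x => QuadraticMap.polar Q y.rep x.rep = 0)
    (fun x x' => x'.rep ∈ line R x) (Nat.card F) e g
  · rw [hZ]
    exact cnt1 h1 Q qd R S hR hRS hne
  · intro x hx
    obtain ⟨hx1, hx2, hx3⟩ := hX x hx
    rw [← cnt2 h1 Q qd R S x hR hS hRS hne hx3 hx2]
    congr 1
    ext y
    rw [Finset.mem_filter, Finset.mem_filter, hmem, mem_sp, Submodule.mem_inf, mem_prp, mem_prp,
      QuadraticMap.polar_comm (⇑Q) y.rep x.rep]
    tauto
  · intro x hx x' hx' hL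
    obtain ⟨hx1, hx2, hx3⟩ := hX x hx
    obtain ⟨hy1, hy2, hy3⟩ := hX x' hx'
    rw [← cnt3 h1 Q qd R S x x' hR hS hRS hne hx3 hx2 hy3 hy2 hx1 hy1 hL]
    congr 1
    ext y
    rw [Finset.mem_filter, Finset.mem_filter, hmem, mem_sp, Submodule.mem_inf, Submodule.mem_inf,
      mem_prp, mem_prp, mem_prp, QuadraticMap.polar_comm (⇑Q) y.rep x.rep,
      QuadraticMap.polar_comm (⇑Q) y.rep x'.rep]
    tauto
  · intro x hx x' hx' hne' hL
    rw [Finset.card_eq_zero, Finset.filter_eq_empty_iff]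
    rintro y hy ⟨ha, hb⟩
    rw [hmem] at hy
    obtain ⟨a, b, hab⟩ := Pool.Agent.Helper53.PB.mem_line.1 hL
    rw [← hab, QuadraticMap.polar_add_right, QuadraticMap.polar_smul_right,
      QuadraticMap.polar_smul_right, ha, smul_zero, add_zero] at hb
    rcases smul_eq_zero.1 hb with h2 | h2
    · rw [h2, zero_smul, zero_add] at hab
      exact hne' (eq_of_smul hab.symm)
    · rw [QuadraticMap.polar_comm] at h2
      exact hy.2 h2
  · intro x hx
    exact Pool.Agent.Helper53.PB.right_mem_line _ _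
  · exact hXl
  · intro y hy
    obtain ⟨h2, h3, h4⟩ := hY y hy
    rw [hmem]
    exact ⟨⟨h3, h2⟩, h4⟩
  · exact hYg
  · exact heq

end Pool.Agent.Helper47.PQ
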